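import Pool.Agent.Work.MP_c9932b_sb.Defs

/-! Syntax tools: shift, substitution, derived connectives, list valuations. -/

set_option autoImplicit false

namespace Pool.SBM

section syntaxTools

/-- `i ↦ i+1` -/
def Tm.shift : Tm → Tm
  | .var i => .var (i + 1)
  | .zero => .zero
  | .one => .one
  | .add s t => .add s.shift t.shift
  | .mul s t => .mul s.shift t.shift

/-- substitution of terms for variables -/
def Tm.subst (σ : ℕ → Tm) : Tm → Tm
  | .var i => σ i
  | .zero => .zero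
  | .one => .one
  | .add s t => .add (s.subst σ) (t.subst σ)
  | .mul s t => .mul (s.subst σ) (t.subst σ)

def Opn.subst (σ : ℕ → Tm) : Opn → Opn
  | .eq s t => .eq (s.subst σ) (t.subst σ)
  | .le s t => .le (s.subst σ) (t.subst σ)
  | .neg φ => .neg (φ.subst σ)
  | .and φ ψ => .and (φ.subst σ) (ψ.subst σ)

/-- lift a substitution under a quantifier -/
def lift (σ : ℕ → Tm) : ℕ → Tm
  | 0 => .var 0
  | i + 1 => (σ i).shift

def D0.subst : D0 → (ℕ → Tm) → D0
  | .opn φ, σ => .opn (φ.subst σ)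
  | .neg φ, σ => .neg (φ.subst σ)
  | .and φ ψ, σ => .and (φ.subst σ) (ψ.subst σ)
  | .ball s φ, σ => .ball (s.subst σ) (φ.subst (lift σ))

/-- the numeral `k` -/
def Tm.num : ℕ → Tm
  | 0 => .zero
  | k + 1 => .add (Tm.num k) .one

def Tm.pow (t : Tm) : ℕ → Tm
  | 0 => .one
  | k + 1 => .mul (Tm.pow t k) t

def Opn.or (φ ψ : Opn) : Opn := .neg (.and (.neg φ) (.neg ψ))
def Opn.tru : Opn := .le .zero .zero
def Opn.fls : Opn := .neg .tru

def Opn.all : List Opn → Opn
  | [] => .tru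
  | φ :: l => .and φ (Opn.all l)

def Opn.any : List Opn → Opn
  | [] => .fls
  | φ :: l => .or φ (Opn.any l)

def D0.or (φ ψ : D0) : D0 := .neg (.and (.neg φ) (.neg ψ))
def D0.imp (φ ψ : D0) : D0 := .neg (.and φ (.neg ψ))
def D0.bex (s : Tm) (φ : D0) : D0 := .neg (.ball s (.neg φ))
def D0.eq (s t : Tm) : D0 := .opn (.eq s t)
def D0.le (s t : Tm) : D0 := .opn (.le s t)
def D0.lt (s t : Tm) : D0 := .neg (.opn (.le t s))

end syntaxTools

section evalLemmas

variable {R : Type} [CommRing R]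

@[simp] lemma push_zero' (a : R) (v : ℕ → R) : push a v 0 = a := rfl
@[simp] lemma push_succ' (a : R) (v : ℕ → R) (i : ℕ) : push a v (i + 1) = v i := rfl
@[simp] lemma push_one' (a : R) (v : ℕ → R) : push a v 1 = v 0 := rfl
@[simp] lemma push_ofNat (a : R) (v : ℕ → R) (i : ℕ) [i.AtLeastTwo] :
    push a v (no_index (OfNat.ofNat i)) = v (i - 1) := by
  obtain ⟨k, rfl⟩ : ∃ k, i = k + 1 := ⟨i - 1, by have := ‹i.AtLeastTwo›.prop; omega⟩
  rfl

@[simp] lemma Tm.eval_var (v : ℕ → R) (i : ℕ) : (Tm.var i).eval v = v i := rfl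
@[simp] lemma Tm.eval_zero (v : ℕ → R) : Tm.zero.eval v = 0 := rfl
@[simp] lemma Tm.eval_one (v : ℕ → R) : Tm.one.eval v = 1 := rfl
@[simp] lemma Tm.eval_add (v : ℕ → R) (s t : Tm) : (Tm.add s t).eval v = s.eval v + t.eval v := rfl
@[simp] lemma Tm.eval_mul (v : ℕ → R) (s t : Tm) : (Tm.mul s t).eval v = s.eval v * t.eval v := rfl

@[simp] lemma Tm.eval_shift (a : R) (v : ℕ → R) (t : Tm) :
    t.shift.eval (push a v) = t.eval v := by
  induction t with
  | var i => rfl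
  | zero => rfl
  | one => rfl
  | add s t hs ht => simp [Tm.shift, hs, ht]
  | mul s t hs ht => simp [Tm.shift, hs, ht]

lemma Tm.eval_subst (v : ℕ → R) (σ : ℕ → Tm) (t : Tm) :
    (t.subst σ).eval v = t.eval (fun i => (σ i).eval v) := by
  induction t with
  | var i => rfl
  | zero => rfl
  | one => rfl
  | add s t hs ht => simp [Tm.subst, hs, ht]
  | mul s t hs ht => simp [Tm.subst, hs, ht]

@[simp] lemma Tm.eval_num (v : ℕ → R) (k : ℕ) : (Tm.num k).eval v = (k : R) := by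
  induction k with
  | zero => simp [Tm.num]
  | succ k ih => simp [Tm.num, ih]

@[simp] lemma Tm.eval_pow (v : ℕ → R) (t : Tm) (k : ℕ) : (t.pow k).eval v = t.eval v ^ k := by
  induction k with
  | zero => simp [Tm.pow]
  | succ k ih => simp [Tm.pow, ih, pow_succ]

lemma lift_eval (a : R) (v : ℕ → R) (σ : ℕ → Tm) :
    (fun i => (lift σ i).eval (push a v)) = push a (fun i => (σ i).eval v) := by
  funext i
  cases i with
  | zero => rfl
  | succ i => simp [lift]

variable [LinearOrder R]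

@[simp] lemma Opn.eval_eq (v : ℕ → R) (s t : Tm) : (Opn.eq s t).eval v ↔ s.eval v = t.eval v :=
  Iff.rfl
@[simp] lemma Opn.eval_le (v : ℕ → R) (s t : Tm) : (Opn.le s t).eval v ↔ s.eval v ≤ t.eval v :=
  Iff.rfl
@[simp] lemma Opn.eval_neg (v : ℕ → R) (φ : Opn) : (Opn.neg φ).eval v ↔ ¬ φ.eval v := Iff.rfl
@[simp] lemma Opn.eval_and (v : ℕ → R) (φ ψ : Opn) :
    (Opn.and φ ψ).eval v ↔ φ.eval v ∧ ψ.eval v := Iff.rfl
@[simp] lemma Opn.eval_or (v : ℕ → R) (φ ψ : Opn) :
    (Opn.or φ ψ).eval v ↔ φ.eval v ∨ ψ.eval v := by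
  simp only [Opn.or, Opn.eval_neg, Opn.eval_and]; tauto
@[simp] lemma Opn.eval_tru (v : ℕ → R) : Opn.tru.eval v := le_refl (0 : R)
@[simp] lemma Opn.eval_fls (v : ℕ → R) : ¬ Opn.fls.eval v := fun h => h (Opn.eval_tru v)

lemma Opn.eval_all (v : ℕ → R) (l : List Opn) : (Opn.all l).eval v ↔ ∀ φ ∈ l, φ.eval v := by
  induction l with
  | nil => simp [Opn.all]
  | cons φ l ih => simp [Opn.all, ih]

lemma Opn.eval_any (v : ℕ → R) (l : List Opn) : (Opn.any l).eval v ↔ ∃ φ ∈ l, φ.eval v := by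
  induction l with
  | nil => simp [Opn.any]
  | cons φ l ih => simp [Opn.any, ih]

lemma Opn.eval_subst (v : ℕ → R) (σ : ℕ → Tm) (φ : Opn) :
    (φ.subst σ).eval v ↔ φ.eval (fun i => (σ i).eval v) := by
  induction φ with
  | eq s t => simp [Opn.subst, Tm.eval_subst]
  | le s t => simp [Opn.subst, Tm.eval_subst]
  | neg φ ih => simp [Opn.subst, ih]
  | and φ ψ h1 h2 => simp [Opn.subst, h1, h2]

@[simp] lemma D0.eval_opn (v : ℕ → R) (φ : Opn) : (D0.opn φ).eval v ↔ φ.eval v := Iff.rfl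
@[simp] lemma D0.eval_neg (v : ℕ → R) (φ : D0) : (D0.neg φ).eval v ↔ ¬ φ.eval v := Iff.rfl
@[simp] lemma D0.eval_and (v : ℕ → R) (φ ψ : D0) :
    (D0.and φ ψ).eval v ↔ φ.eval v ∧ ψ.eval v := Iff.rfl
@[simp] lemma D0.eval_ball (v : ℕ → R) (s : Tm) (φ : D0) :
    (D0.ball s φ).eval v ↔ ∀ a : R, 0 ≤ a → a ≤ s.eval v → φ.eval (push a v) := Iff.rfl
@[simp] lemma D0.eval_or (v : ℕ → R) (φ ψ : D0) :
    (D0.or φ ψ).eval v ↔ φ.eval v ∨ ψ.eval v := by
  simp only [D0.or, D0.eval_neg, D0.eval_and]; tauto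
@[simp] lemma D0.eval_imp (v : ℕ → R) (φ ψ : D0) :
    (D0.imp φ ψ).eval v ↔ (φ.eval v → ψ.eval v) := by
  simp only [D0.imp, D0.eval_neg, D0.eval_and]; tauto
@[simp] lemma D0.eval_bex (v : ℕ → R) (s : Tm) (φ : D0) :
    (D0.bex s φ).eval v ↔ ∃ a : R, 0 ≤ a ∧ a ≤ s.eval v ∧ φ.eval (push a v) := by
  simp only [D0.bex, D0.eval_neg, D0.eval_ball]; push Not; rfl
@[simp] lemma D0.eval_eq (v : ℕ → R) (s t : Tm) : (D0.eq s t).eval v ↔ s.eval v = t.eval v :=
  Iff.rfl
@[simp] lemma D0.eval_le (v : ℕ → R) (s t : Tm) : (D0.le s t).eval v ↔ s.eval v ≤ t.eval v :=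
  Iff.rfl
@[simp] lemma D0.eval_lt (v : ℕ → R) (s t : Tm) : (D0.lt s t).eval v ↔ s.eval v < t.eval v := by
  simp [D0.lt]

lemma D0.eval_subst (φ : D0) : ∀ (v : ℕ → R) (σ : ℕ → Tm),
    (φ.subst σ).eval v ↔ φ.eval (fun i => (σ i).eval v) := by
  induction φ with
  | opn φ => intro v σ; simp [D0.subst, Opn.eval_subst]
  | neg φ ih => intro v σ; simp [D0.subst, ih]
  | and φ ψ h1 h2 => intro v σ; simp [D0.subst, h1, h2]
  | ball s φ ih =>
    intro v σ
    simp only [D0.subst, D0.eval_ball, Tm.eval_subst]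
    refine forall_congr' fun a => forall_congr' fun _ => forall_congr' fun _ => ?_
    rw [ih, lift_eval]

end evalLemmas

section nonneg

variable {R : Type} [CommRing R] [LinearOrder R] [IsStrictOrderedRing R]

lemma Tm.eval_nonneg {v : ℕ → R} (hv : ∀ i, 0 ≤ v i) (t : Tm) : 0 ≤ t.eval v := by
  induction t with
  | var i => exact hv i
  | zero => exact le_refl _
  | one => exact zero_le_one
  | add s t hs ht => exact add_nonneg hs ht
  | mul s t hs ht => exact mul_nonneg hs ht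

lemma push_nonneg {a : R} {v : ℕ → R} (ha : 0 ≤ a) (hv : ∀ i, 0 ≤ v i) : ∀ i, 0 ≤ push a v i := by
  intro i
  cases i with
  | zero => exact ha
  | succ i => exact hv i

end nonneg

/-- valuation given by a list (zero beyond its length) -/
def lv {R : Type} [Zero R] (l : List R) : ℕ → R := fun i => l.getD i 0

lemma push_lv {R : Type} [Zero R] (a : R) (l : List R) : push a (lv l) = lv (a :: l) := by
  funext i
  cases i with
  | zero => rfl
  | succ i => simp [push, lv]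

end Pool.SBM
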