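import Mathlib

/-!
# Bounded arithmetic: definitions

Terms, open formulas and bounded formulas of `{0,1,+,·,≤}`, discretely ordered rings with bounded
induction on the nonnegative part (models of `IΔ₀`), collection, the bounded Matiyasevich
conjecture (`BMC`) and its sharp form with a uniform exponent (`Sharp`).
-/

set_option autoImplicit false

namespace Pool.SBM

/-- Terms of the language `{0,1,+,·}`. -/
inductive Tm : Type
  | var (i : ℕ) : Tm
  | zero : Tm
  | one : Tm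
  | add (s t : Tm) : Tm
  | mul (s t : Tm) : Tm

/-- Open (quantifier free) formulas. -/
inductive Opn : Type
  | eq (s t : Tm) : Opn
  | le (s t : Tm) : Opn
  | neg (φ : Opn) : Opn
  | and (φ ψ : Opn) : Opn

/-- Bounded formulas with de Bruijn variables: `ball s φ` is `∀ y ≤ s, φ`; inside `φ` the variable
`0` is `y` and variable `i+1` is the old variable `i`. -/
inductive D0 : Type
  | opn (φ : Opn) : D0
  | neg (φ : D0) : D0
  | and (φ ψ : D0) : D0
  | ball (s : Tm) (φ : D0) : D0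

/-- `a, v 0, v 1, ...` -/
def push {R : Type} (a : R) (v : ℕ → R) : ℕ → R
  | 0 => a
  | i + 1 => v i

/-- Value of a term. -/
def Tm.eval {R : Type} [CommRing R] (v : ℕ → R) : Tm → R
  | .var i => v i
  | .zero => 0
  | .one => 1
  | .add s t => s.eval v + t.eval v
  | .mul s t => s.eval v * t.eval v

/-- Truth of an open formula. -/
def Opn.eval {R : Type} [CommRing R] [LinearOrder R] (v : ℕ → R) : Opn → Prop
  | .eq s t => s.eval v = t.eval v
  | .le s t => s.eval v ≤ t.eval v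
  | .neg φ => ¬ φ.eval v
  | .and φ ψ => φ.eval v ∧ ψ.eval v

/-- Truth of a bounded formula in the nonnegative part of `R`. -/
def D0.eval {R : Type} [CommRing R] [LinearOrder R] : D0 → (ℕ → R) → Prop
  | .opn φ, v => φ.eval v
  | .neg φ, v => ¬ φ.eval v
  | .and φ ψ, v => φ.eval v ∧ ψ.eval v
  | .ball s φ, v => ∀ a : R, 0 ≤ a → a ≤ s.eval v → φ.eval (push a v)

/-- The nonnegative part of the ordered ring `R` is a model of `IΔ₀`: the order is discrete and
induction holds for all bounded formulas with parameters. -/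
structure IDelta0 (R : Type) [CommRing R] [LinearOrder R] : Prop where
  disc : ∀ x : R, 0 < x → 1 ≤ x
  ind : ∀ (φ : D0) (v : ℕ → R), (∀ i, 0 ≤ v i) → φ.eval (push 0 v) →
    (∀ a : R, 0 ≤ a → φ.eval (push a v) → φ.eval (push (a + 1) v)) →
    ∀ a : R, 0 ≤ a → φ.eval (push a v)

/-- Collection for bounded formulas. -/
def BSigma1 (R : Type) [CommRing R] [LinearOrder R] : Prop :=
  ∀ (φ : D0) (v : ℕ → R) (t : R), (∀ i, 0 ≤ v i) → 0 ≤ t →
    (∀ x : R, 0 ≤ x → x < t → ∃ y : R, 0 ≤ y ∧ φ.eval (push y (push x v))) →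
    ∃ z : R, 0 ≤ z ∧ ∀ x : R, 0 ≤ x → x < t → ∃ y : R, 0 ≤ y ∧ y < z ∧ φ.eval (push y (push x v))

/-- `x 0, ..., x (n-1), 0, 0, ...` -/
def ev {R : Type} [Zero R] {n : ℕ} (x : Fin n → R) : ℕ → R :=
  fun i => if h : i < n then x ⟨i, h⟩ else 0

/-- `x 0, ..., x (n-1), z 0, ..., z (l-1), 0, 0, ...` -/
def cat {R : Type} [Zero R] {n l : ℕ} (x : Fin n → R) (z : Fin l → R) : ℕ → R :=
  fun i => if h : i < n then x ⟨i, h⟩ else ev z (i - n)

/-- The bounded Matiyasevich conjecture: for every open `θ(y,x,z)` there is an open `θ'(x,z')` with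
`IΔ₀ + BΣ₁ ⊢ ∀ x [∀ y ≤ x₁ ∃ z θ ↔ ∃ z' θ']`  (all models of `IΔ₀ + BΣ₁`). -/
def BMC : Prop :=
  ∀ (s l : ℕ) (θ : Opn), ∃ (l' : ℕ) (θ' : Opn),
    ∀ (R : Type) [CommRing R] [LinearOrder R] [IsStrictOrderedRing R], IDelta0 R → BSigma1 R →
    ∀ x : Fin (s + 1) → R, (∀ i, 0 ≤ x i) →
      ((∀ y : R, 0 ≤ y → y ≤ x 0 →
          ∃ z : Fin l → R, (∀ i, 0 ≤ z i) ∧ θ.eval (push y (cat x z))) ↔
        ∃ z' : Fin l' → R, (∀ i, 0 ≤ z' i) ∧ θ'.eval (cat x z'))

/-- A coding of finite tuples (in every ordered ring). -/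
abbrev Coding : Type 1 :=
  ∀ (R : Type) [CommRing R] [LinearOrder R] (n : ℕ), (Fin n → R) → R

/-- The two properties of sequence codings that are used: the code of a tuple is polynomially
bounded for every fixed length, and it is at least a fixed power of the product of the entries up to
a constant depending on the length. -/
structure Coding.Natural (cd : Coding) : Prop where
  lower : ∃ c : ℕ, ∀ n : ℕ, ∃ C : ℕ,
    ∀ (R : Type) [CommRing R] [LinearOrder R] [IsStrictOrderedRing R], IDelta0 R →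
    ∀ x : Fin n → R, (∀ i, 0 ≤ x i) → 0 ≤ cd R n x ∧
      ∏ i, (x i + 1) ≤ (C : R) * (cd R n x + 1) ^ c
  upper : ∀ n : ℕ, ∃ C c : ℕ,
    ∀ (R : Type) [CommRing R] [LinearOrder R] [IsStrictOrderedRing R], IDelta0 R →
    ∀ x : Fin n → R, (∀ i, 0 ≤ x i) → cd R n x ≤ (C : R) * (1 + ∑ i, x i) ^ c

/-- The sharp form: one exponent `m` for all open `θ`; (A) and (B) hold in every model of `IΔ₀`.
`gn` is the Gödel numbering. -/
def Sharp (cd : Coding) (gn : Opn → ℕ) : Prop :=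
  ∃ m : ℕ, ∀ (s l : ℕ) (θ : Opn), ∃ (l' : ℕ) (θ' : Opn),
    ∀ (R : Type) [CommRing R] [LinearOrder R] [IsStrictOrderedRing R], IDelta0 R →
      (∀ t : R, (gn θ : R) ≤ t → ∀ x : Fin (s + 1) → R, (∀ i, 0 ≤ x i) → cd R (s + 1) x ≤ t →
        (∀ y : R, 0 ≤ y → y ≤ x 0 → ∃ z : Fin l → R, (∀ i, 0 ≤ z i) ∧ cd R l z ≤ t ∧
          θ.eval (push y (cat x z))) →
        ∃ z' : Fin l' → R, (∀ i, 0 ≤ z' i) ∧ cd R l' z' ≤ t ^ m ∧ θ'.eval (cat x z')) ∧
      (∀ x : Fin (s + 1) → R, (∀ i, 0 ≤ x i) →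
        (∃ z' : Fin l' → R, (∀ i, 0 ≤ z' i) ∧ θ'.eval (cat x z')) →
        ∀ y : R, 0 ≤ y → y ≤ x 0 →
          ∃ z : Fin l → R, (∀ i, 0 ≤ z i) ∧ θ.eval (push y (cat x z)))

end Pool.SBM
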