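import Pool.Agent.Work.MP_c9932b_sb.UnivEval

/-!
# Interface: statements of the blocks (proofs in BLUEPRINT.md)
-/

set_option autoImplicit false

open Finset

namespace Pool.SBM

/-! ### Part A: arithmetic in models of `IΔ₀` -/

/-- LNP: least number principle for bounded formulas -/
def Stmt_LNP : Prop :=
  ∀ (R : Type) [CommRing R] [LinearOrder R] [IsStrictOrderedRing R], IDelta0 R →
    ∀ (φ : D0) (v : ℕ → R), (∀ i, 0 ≤ v i) → (∃ a : R, 0 ≤ a ∧ φ.eval (push a v)) →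
      ∃ a : R, 0 ≤ a ∧ φ.eval (push a v) ∧ ∀ b : R, 0 ≤ b → b < a → ¬ φ.eval (push b v)

/-- MAX: greatest element of a bounded set defined by a bounded formula -/
def Stmt_MAX : Prop :=
  ∀ (R : Type) [CommRing R] [LinearOrder R] [IsStrictOrderedRing R], IDelta0 R →
    ∀ (φ : D0) (v : ℕ → R) (M : R), (∀ i, 0 ≤ v i) → (∃ a : R, 0 ≤ a ∧ φ.eval (push a v)) →
      (∀ a : R, 0 ≤ a → φ.eval (push a v) → a ≤ M) →
      ∃ a : R, 0 ≤ a ∧ φ.eval (push a v) ∧ ∀ b : R, 0 ≤ b → φ.eval (push b v) → b ≤ a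

/-- DIV: division with remainder -/
def Stmt_DIV : Prop :=
  ∀ (R : Type) [CommRing R] [LinearOrder R] [IsStrictOrderedRing R], IDelta0 R →
    ∀ a b : R, 0 ≤ a → 0 < b → ∃ q r : R, 0 ≤ q ∧ q ≤ a ∧ 0 ≤ r ∧ r < b ∧ a = b * q + r

/-- STD: elements below a standard number are standard -/
def Stmt_STD : Prop :=
  ∀ (R : Type) [CommRing R] [LinearOrder R] [IsStrictOrderedRing R],
    (∀ x : R, 0 < x → 1 ≤ x) → ∀ (n : ℕ) (a : R), 0 ≤ a → a ≤ (n : R) → ∃ k : ℕ, k ≤ n ∧ a = (k : R)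

/-- ROOT: integer parts of roots of standard order -/
def Stmt_ROOT : Prop :=
  ∀ (R : Type) [CommRing R] [LinearOrder R] [IsStrictOrderedRing R], IDelta0 R →
    ∀ (κ : ℕ) (t : R), 1 ≤ κ → 1 ≤ t → ∃ b : R, 1 ≤ b ∧ b ^ κ ≤ t ∧ t < (b + 1) ^ κ

/-- CRT: existence of `β`-codes of sequences of standard length -/
def Stmt_CRT : Prop :=
  ∀ n : ℕ, ∃ C : ℕ,
    ∀ (R : Type) [CommRing R] [LinearOrder R] [IsStrictOrderedRing R], IDelta0 R →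
    ∀ (q : R) (a : Fin n → R), 1 ≤ q → (∀ j, 0 ≤ a j ∧ a j < q) →
      ∃ c d : R, 0 ≤ c ∧ 0 ≤ d ∧ c ≤ (C : R) * q ^ n ∧ d ≤ (C : R) * q ∧
        ∀ j : Fin n, Bt c d ((j : ℕ) : R) (a j)

/-! ### Part B: the universal formula -/

/-- `V` is a run of the program `pr` with `n0` inputs -/
def IsRun {R : Type} [CommRing R] (n0 : ℕ) (pr : List (ℕ × ℕ × ℕ)) (V : ℕ → R) : Prop :=
  ∀ (k : ℕ) (hk : k < pr.length), V (n0 + k) = V (pr[k]).1 * V (pr[k]).2.1 + V (pr[k]).2.2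

/-- instructions refer to earlier nodes -/
def WF (n0 : ℕ) (pr : List (ℕ × ℕ × ℕ)) : Prop :=
  ∀ (k : ℕ) (hk : k < pr.length), (pr[k]).1 < n0 + k ∧ (pr[k]).2.1 < n0 + k ∧ (pr[k]).2.2 < n0 + k

/-- SLP: every open formula is a disjunction of conjunctions of strict inequalities between nodes of
a straight line program -/
def Stmt_SLP : Prop :=
  ∀ (n : ℕ) (φ : Opn), ∃ (pr : List (ℕ × ℕ × ℕ)) (I J : ℕ) (pa pb : ℕ → ℕ),
    WF (6 + n) pr ∧ (∀ k, pa k < 6 + n + pr.length ∧ pb k < 6 + n + pr.length) ∧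
    ∀ (R : Type) [CommRing R] [LinearOrder R] [IsStrictOrderedRing R],
      (∀ x : R, 0 < x → 1 ≤ x) → ∀ v V : ℕ → R, V 0 = 0 → V 1 = 1 →
      (∀ i < 4 + n, V (2 + i) = v i) → (∀ i, 4 + n ≤ i → v i = 0) → IsRun (6 + n) pr V →
      (φ.eval v ↔ ∃ i < I, ∀ j < J, V (pb (i * J + j)) < V (pa (i * J + j)))

/-- RUN: runs exist and are polynomially bounded -/
def Stmt_RUN : Prop :=
  ∀ (n0 : ℕ) (pr : List (ℕ × ℕ × ℕ)), WF n0 pr → ∃ D : ℕ,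
    ∀ (R : Type) [CommRing R] [LinearOrder R] [IsStrictOrderedRing R] (w : ℕ → R) (M : R),
      2 ≤ M → (∀ k < n0, 0 ≤ w k ∧ w k ≤ M) →
      ∃ V : ℕ → R, (∀ k < n0, V k = w k) ∧ IsRun n0 pr V ∧
        ∀ k < n0 + pr.length, 0 ≤ V k ∧ V k ≤ M ^ D

/-- the integer whose residue modulo `W` approximates `W · N · K! / ∏ (q+i)` -/
def SK (K : ℕ) (A B : ℕ → ℕ) : ℤ :=
  ∑ i ∈ range (K + 1), (-1) ^ i * (K.choose i : ℤ) * ((A i : ℤ) - (B i : ℤ))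

/-- DIF: finite difference formula with approximate residues -/
def Stmt_DIF : Prop :=
  ∀ (K W : ℕ) (R : Type) [CommRing R] [LinearOrder R] [IsStrictOrderedRing R]
    (q x y : R) (r s u w : ℕ → R) (A B : ℕ → ℕ), 1 ≤ q →
    (∀ i ≤ K, x = (q + i) * u i + r i ∧ y = (q + i) * w i + s i ∧
      (A i : R) * (q + i) ≤ W * r i ∧ (W : R) * r i < (A i + 1) * (q + i) ∧
      (B i : R) * (q + i) ≤ W * s i ∧ (W : R) * s i < (B i + 1) * (q + i)) →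
    ∃ Z : R, |(W : R) * (K.factorial : R) * (x - y)
        - (∏ i ∈ range (K + 1), (q + (i : R))) * ((W : R) * Z + ((SK K A B : ℤ) : R))|
      ≤ 2 ^ K * ∏ i ∈ range (K + 1), (q + (i : R))

/-- precision -/
def WK (K : ℕ) : ℕ := 2 ^ (K + 3) * (K + 2)

/-- `S` modulo `W` approximates `W K! N / ∏ (q+i)` -/
def Star {R : Type} [CommRing R] [LinearOrder R] (K : ℕ) (N q : R) (S : ℤ) : Prop :=
  ∃ Z : R, |(WK K : R) * (K.factorial : R) * N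
      - (∏ i ∈ range (K + 1), (q + (i : R))) * ((WK K : R) * Z + (S : R))|
    ≤ 2 ^ K * ∏ i ∈ range (K + 1), (q + (i : R))

/-- clearly positive -/
def ClsP (K : ℕ) (S : ℤ) : Prop :=
  2 ^ (K + 1) ≤ S % (WK K : ℤ) ∧ 2 * (S % (WK K : ℤ)) < (WK K : ℤ)

/-- clearly negative -/
def ClsM (K : ℕ) (S : ℤ) : Prop :=
  (WK K : ℤ) < 2 * (S % (WK K : ℤ)) ∧ S % (WK K : ℤ) ≤ (WK K : ℤ) - 2 ^ (K + 1)

/-- SGN: the sign of `N` is the sign of the last clearly nonzero approximation -/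
def Stmt_SGN : Prop :=
  ∀ (K : ℕ) (R : Type) [CommRing R] [LinearOrder R] [IsStrictOrderedRing R], IDelta0 R →
    ∀ (φp φm : D0) (v : ℕ → R) (N T Q0 : R), (∀ i, 0 ≤ v i) → 1 ≤ Q0 → Q0 ≤ T →
      (∀ q : R, 1 ≤ q → q ≤ Q0 → ∃ S : ℤ, Star K N q S ∧
        (φp.eval (push q v) ↔ ClsP K S) ∧ (φm.eval (push q v) ↔ ClsM K S)) →
      (∀ q : R, 1 ≤ q → q ≤ T → φp.eval (push q v) → ∃ S : ℤ, Star K N q S ∧ ClsP K S) →
      (∀ q : R, 1 ≤ q → q ≤ T → φm.eval (push q v) → ∃ S : ℤ, Star K N q S ∧ ClsM K S) →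
      (WK K : R) * (K.factorial : R) * |N| < 3 * 2 ^ K * ∏ i ∈ range (K + 1), (Q0 + 1 + (i : R)) →
      (0 < N ↔ ∃ q : R, 0 ≤ q ∧ q ≤ T ∧ (1 ≤ q ∧ φp.eval (push q v) ∧
        ∀ q' : R, 0 ≤ q' → q' ≤ T → (q < q' →
          ¬ φp.eval (push q' v) ∧ ¬ φm.eval (push q' v))))

/-- TREE: the trees exist for small moduli and compute the residues of the run -/
def Stmt_TREE : Prop :=
  ∀ (n : ℕ) (pr : List (ℕ × ℕ × ℕ)), WF (6 + n) pr →
    ∀ (E F : ℕ), (∀ (k : ℕ) (hk : k < pr.length),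
        Nat.mod E (1 + (3 * k + 1) * F) = (pr[k]).1 ∧
        Nat.mod E (1 + (3 * k + 1 + 1) * F) = (pr[k]).2.1 ∧
        Nat.mod E (1 + (3 * k + 2 + 1) * F) = (pr[k]).2.2) →
    ∃ C : ℕ, ∀ (R : Type) [CommRing R] [LinearOrder R] [IsStrictOrderedRing R], IDelta0 R →
      ∀ (P V : ℕ → R), (∀ i, 0 ≤ P i) → P 0 = E → P 1 = F → P 10 = n → P 11 = pr.length →
        V 0 = 0 → V 1 = 1 → (∀ i < 4, V (2 + i) = P (16 + i)) →
        (∀ j < n, 0 ≤ V (6 + j) ∧ V (6 + j) ≤ P 20 ∧ Bt (P 20) (P 21) (j : R) (V (6 + j))) →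
        IsRun (6 + n) pr V → (∀ k < 6 + n + pr.length, 0 ≤ V k) →
        (∀ q c' d' : R, 1 ≤ q → 0 ≤ c' → 0 ≤ d' → Tree P q c' d' →
          ∀ k < 6 + n + pr.length, ∃ a u : R, 0 ≤ a ∧ a < q ∧ Bt c' d' (k : R) a ∧
            V k = q * u + a) ∧
        (∀ q : R, 1 ≤ q → ∃ c' d' : R, 0 ≤ c' ∧ 0 ≤ d' ∧
          c' ≤ (C : R) * q ^ (6 + n + pr.length) ∧ d' ≤ (C : R) * q ∧ Tree P q c' d')

/-- UNI: `UnivF` is universal for open formulas -/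
def Stmt_UNI : Prop :=
  ∀ (n : ℕ) (φ : Opn), ∃ (pm : ℕ → ℕ) (T0 : ℕ),
    ∀ (R : Type) [CommRing R] [LinearOrder R] [IsStrictOrderedRing R], IDelta0 R →
    ∀ v : ℕ → R, (∀ i, 0 ≤ v i) → (∀ i < 16, v i = (pm i : R)) → (T0 : R) ≤ v 22 →
      (∀ i, 16 ≤ i → i < 22 → v i ≤ v 22) →
      ∀ a : Fin n → R, (∀ j, 0 ≤ a j ∧ Bt (v 20) (v 21) ((j : ℕ) : R) (a j)) →
        (UnivF v ↔ φ.eval (cat (fun i : Fin 4 => v (16 + i)) a))

/-! ### Part C: packing of tuples -/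

/-- continuants: `kp [x_0,...,x_s] = (K(x_0,...,x_s), K(x_1,...,x_s))` -/
def kp {R : Type} [CommRing R] : List R → R × R
  | [] => (1, 0)
  | a :: l => (a * (kp l).1 + (kp l).2, (kp l).1)

/-- KIN: continuants of positive tuples of given length are injective -/
def Stmt_KIN : Prop :=
  ∀ (R : Type) [CommRing R] [LinearOrder R] [IsStrictOrderedRing R],
    (∀ x : R, 0 < x → 1 ≤ x) → ∀ l l' : List R, l.length = l'.length →
      (∀ a ∈ l, 1 ≤ a) → (∀ a ∈ l', 1 ≤ a) → kp l = kp l' → l = l'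

/-- GB: Gödel's `β` lemma in `ℕ` -/
def Stmt_GB : Prop :=
  ∀ (f : ℕ → ℕ) (N : ℕ), ∃ E F : ℕ, ∀ i < N, E % (1 + (i + 1) * F) = f i

/-- the tuple of continuants of `x+1` -/
def kpx {R : Type} [CommRing R] {s : ℕ} (x : Fin s → R) : R × R := kp (List.ofFn fun i => x i + 1)

/-- KSZ: size of the continuants -/
def Stmt_KSZ : Prop :=
  ∀ (R : Type) [CommRing R] [LinearOrder R] [IsStrictOrderedRing R] (s : ℕ) (x : Fin s → R),
    (∀ i, 0 ≤ x i) → 0 ≤ (kpx x).1 ∧ 0 ≤ (kpx x).2 ∧ (kpx x).1 ≤ ∏ i, (x i + 2) ∧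
      (kpx x).2 ≤ ∏ i, (x i + 2)

/-- PACK: the tuple `z` (and `x`) is packed into digits of equal size; `x` is controlled by the
continuants -/
def Stmt_PACK : Prop :=
  ∀ (e s l : ℕ) (θ : Opn), ∃ (n : ℕ) (φ : Opn) (T0 : ℕ),
    ∀ (R : Type) [CommRing R] [LinearOrder R] [IsStrictOrderedRing R], IDelta0 R →
      (∀ (t y : R) (x : Fin (s + 1) → R) (z : Fin l → R), (T0 : R) ≤ t → 0 ≤ y →
        (∀ i, 0 ≤ x i) → (∀ i, 0 ≤ z i) → ∏ i, (x i + 1) ≤ t ^ e → ∏ i, (z i + 1) ≤ t ^ e →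
        θ.eval (push y (cat x z)) →
        ∃ b c d : R, 0 ≤ b ∧ b ≤ t ∧ 0 ≤ c ∧ c ≤ t ^ (4 * e + 2) ∧ 0 ≤ d ∧ d ≤ t ^ (4 * e + 2) ∧
          ∃ a : Fin n → R, (∀ j, 0 ≤ a j ∧ Bt c d ((j : ℕ) : R) (a j)) ∧
            φ.eval (cat ![y, (kpx x).1, (kpx x).2, b] a)) ∧
      (∀ (y b : R) (x : Fin (s + 1) → R) (a : Fin n → R), 0 ≤ y → 0 ≤ b → (∀ i, 0 ≤ x i) →
        (∀ j, 0 ≤ a j) → φ.eval (cat ![y, (kpx x).1, (kpx x).2, b] a) →
        ∃ z : Fin l → R, (∀ i, 0 ≤ z i) ∧ θ.eval (push y (cat x z)))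

/-! ### Part D: logic -/

/-- EXI: under `BMC` every bounded formula is existential in models of `IΔ₀ + BΣ₁` -/
def Stmt_EXI : Prop :=
  BMC → ∀ (φ : D0) (n : ℕ), ∃ (l : ℕ) (χ : Opn),
    ∀ (R : Type) [CommRing R] [LinearOrder R] [IsStrictOrderedRing R], IDelta0 R → BSigma1 R →
    ∀ x : Fin n → R, (∀ i, 0 ≤ x i) →
      (φ.eval (ev x) ↔ ∃ z : Fin l → R, (∀ i, 0 ≤ z i) ∧ χ.eval (cat x z))

/-- CUT: the cut generated by the powers of `c` is a model of `IΔ₀ + BΣ₁` if it is proper -/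
def Stmt_CUT : Prop :=
  ∀ (R : Type) [CommRing R] [LinearOrder R] [IsStrictOrderedRing R], IDelta0 R →
    ∀ c ω : R, 2 ≤ c → (∀ n : ℕ, c ^ n ≤ ω) →
    ∃ (I : Type) (_ : CommRing I) (_ : LinearOrder I) (_ : IsStrictOrderedRing I) (f : I →+* R),
      StrictMono f ∧ (∀ x : R, (∃ n : ℕ, |x| ≤ c ^ n) ↔ ∃ a : I, f a = x) ∧
      IDelta0 I ∧ BSigma1 I ∧
      ∀ (φ : D0) (v : ℕ → I), φ.eval v ↔ φ.eval (fun i => f (v i))

/-- ULT: ultraproducts of models of `IΔ₀` -/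
def Stmt_ULT : Prop :=
  ∀ (A : ℕ → Type) [∀ n, CommRing (A n)] [∀ n, LinearOrder (A n)]
    [∀ n, IsStrictOrderedRing (A n)], (∀ n, IDelta0 (A n)) →
    ∃ (R : Type) (_ : CommRing R) (_ : LinearOrder R) (_ : IsStrictOrderedRing R)
      (mk : (∀ n, A n) →+* R), Function.Surjective mk ∧ IDelta0 R ∧
      ∀ (φ : D0) (v : ℕ → ∀ n, A n),
        φ.eval (fun i => mk (v i)) ↔ ∀ᶠ n in (Filter.hyperfilter ℕ : Filter ℕ),
          φ.eval (fun i => v i n)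

/-- PAR: bounds for the witnesses in all models of `IΔ₀` -/
def Stmt_PAR : Prop :=
  ∀ (φ : D0) (n l : ℕ) (χ : Opn),
    (∀ (R : Type) [CommRing R] [LinearOrder R] [IsStrictOrderedRing R], IDelta0 R → BSigma1 R →
      ∀ x : Fin n → R, (∀ i, 0 ≤ x i) →
        (φ.eval (ev x) ↔ ∃ z : Fin l → R, (∀ i, 0 ≤ z i) ∧ χ.eval (cat x z))) →
    ∃ m : ℕ, ∀ (R : Type) [CommRing R] [LinearOrder R] [IsStrictOrderedRing R], IDelta0 R →
      ∀ x : Fin n → R, (∀ i, 0 ≤ x i) →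
        (φ.eval (ev x) → ∃ z : Fin l → R, (∀ i, 0 ≤ z i ∧ z i ≤ (2 + ∑ j, x j) ^ m) ∧
          χ.eval (cat x z)) ∧
        ((∃ z : Fin l → R, (∀ i, 0 ≤ z i) ∧ χ.eval (cat x z)) → φ.eval (ev x))

/-- CONV: the sharp form implies `BMC` -/
def Stmt_CONV : Prop :=
  ∀ (cd : Coding) (gn : Opn → ℕ), cd.Natural → Sharp cd gn → BMC

/-- FIN: `BMC` implies the sharp form -/
def Stmt_FIN : Prop :=
  ∀ (cd : Coding) (gn : Opn → ℕ), cd.Natural → (∀ θ, 2 ≤ gn θ) → BMC → Sharp cd gn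

/-- the coding by the iterated pairing function `(a+b)^2+a` -/
def pairList {R : Type} [CommRing R] : List R → R
  | [] => 0
  | a :: l => (a + pairList l) ^ 2 + a

def pairCoding : Coding := fun R _ _ n x => pairList (List.ofFn (n := n) x)

/-- COD: the pairing coding is natural -/
def Stmt_COD : Prop := Coding.Natural pairCoding

end Pool.SBM
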