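import Pool.Agent.Work.MP_c9932b_sb.Basic

/-!
# The universal bounded formula for open formulas

`U` is one bounded formula.  Its variables are
`0..15` : parameters `E1 F1 E2 F2 E3 F3 H3 E4 F4 H4 n L K W I J`,
`16..19`: big inputs `Y0..Y3`, `20, 21`: code `(c,d)` of the small inputs, `22`: `T`.
-/

set_option autoImplicit false

namespace Pool.SBM

section sem

variable {R : Type} [CommRing R] [LinearOrder R]

/-- `a` is Gödel's `β(c,d,i)`, the remainder of `c` modulo `1 + (i+1) d` -/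
def Bt (c d i a : R) : Prop :=
  a ≤ (i + 1) * d ∧ ∃ u : R, 0 ≤ u ∧ u ≤ c ∧ c = u * (1 + (i + 1) * d) + a

/-- congruence modulo `q` -/
def Cong (q a b : R) : Prop :=
  ∃ u : R, 0 ≤ u ∧ u ≤ a + b ∧ (a = u * q + b ∨ b = u * q + a)

/-- entry `k` of `(c',d')` is the remainder of `x` modulo `q` -/
def NodeIs (q c' d' k x : R) : Prop :=
  ∃ a : R, 0 ≤ a ∧ a ≤ q ∧ (a < q ∧ Bt c' d' k a ∧ Cong q a x)

/-- `(c',d')` codes the residues modulo `q` of all nodes of the computation -/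
def Tree (P : ℕ → R) (q c' d' : R) : Prop :=
  (NodeIs q c' d' 0 0 ∧ NodeIs q c' d' 1 1 ∧ NodeIs q c' d' (1 + 1) (P 16) ∧
    NodeIs q c' d' (1 + 1 + 1) (P 17) ∧ NodeIs q c' d' (1 + 1 + 1 + 1) (P 18) ∧
    NodeIs q c' d' (1 + 1 + 1 + 1 + 1) (P 19)) ∧
  (∀ j : R, 0 ≤ j → j ≤ P 10 → (j < P 10 →
    ∃ x : R, 0 ≤ x ∧ x ≤ P 20 ∧ (Bt (P 20) (P 21) j x ∧
      NodeIs q c' d' (1 + 1 + 1 + 1 + 1 + 1 + j) x))) ∧
  (∀ k : R, 0 ≤ k → k ≤ P 11 → (k < P 11 →
    ∃ a : R, 0 ≤ a ∧ a ≤ P 0 ∧ ∃ b : R, 0 ≤ b ∧ b ≤ P 0 ∧ ∃ e : R, 0 ≤ e ∧ e ≤ P 0 ∧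
      ((Bt (P 0) (P 1) (k + k + k) a ∧ Bt (P 0) (P 1) (k + k + k + 1) b ∧
        Bt (P 0) (P 1) (k + k + k + 1 + 1) e) ∧
      ∃ x : R, 0 ≤ x ∧ x ≤ c' ∧ ∃ y : R, 0 ≤ y ∧ y ≤ c' ∧ ∃ z : R, 0 ≤ z ∧ z ≤ c' ∧
        ((Bt c' d' a x ∧ Bt c' d' b y ∧ Bt c' d' e z) ∧
          NodeIs q c' d' (1 + 1 + 1 + 1 + 1 + 1 + P 10 + k) (x * y + z)))))

/-- `A = ⌊W r / q⌋` where `r` is entry `k` of `(c',d')` -/
def Fl (W q c' d' k A : R) : Prop :=
  ∃ a : R, 0 ≤ a ∧ a ≤ q ∧ (Bt c' d' k a ∧ (A * q ≤ W * a ∧ W * a < (A + 1) * q))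

/-- the vectors of approximate residues modulo `q, ..., q+K` of the nodes `ka`, `kb` are entry `h < H`
of the table `(E,F)`, for some `h` -/
def SgF (P : ℕ → R) (E F H ka kb q : R) : Prop :=
  ∃ h : R, 0 ≤ h ∧ h ≤ H ∧ (h < H ∧ ∀ i : R, 0 ≤ i → i ≤ P 12 →
    ∃ c' : R, 0 ≤ c' ∧ c' ≤ P 22 ∧ ∃ d' : R, 0 ≤ d' ∧ d' ≤ P 22 ∧ (Tree P (q + i) c' d' ∧
      ∃ A : R, 0 ≤ A ∧ A ≤ E ∧ ∃ B : R, 0 ≤ B ∧ B ≤ E ∧
        ((Bt E F ((1 + 1) * (h * (P 12 + 1) + i)) A ∧
          Bt E F ((1 + 1) * (h * (P 12 + 1) + i) + 1) B) ∧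
        (Fl (P 13) (q + i) c' d' ka A ∧ Fl (P 13) (q + i) c' d' kb B))))

/-- the difference of the values of the nodes `ka` and `kb` is positive -/
def PosF (P : ℕ → R) (ka kb : R) : Prop :=
  ∃ q : R, 0 ≤ q ∧ q ≤ P 22 ∧ (1 ≤ q ∧ SgF P (P 4) (P 5) (P 6) ka kb q ∧
    ∀ q' : R, 0 ≤ q' → q' ≤ P 22 → (q < q' →
      ¬ SgF P (P 4) (P 5) (P 6) ka kb q' ∧ ¬ SgF P (P 7) (P 8) (P 9) ka kb q'))

/-- truth of the open formula coded by the parameters -/
def UnivF (P : ℕ → R) : Prop :=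
  ∃ i : R, 0 ≤ i ∧ i ≤ P 14 ∧ (i < P 14 ∧ ∀ j : R, 0 ≤ j → j ≤ P 15 → (j < P 15 →
    ∃ ka : R, 0 ≤ ka ∧ ka ≤ P 2 ∧ ∃ kb : R, 0 ≤ kb ∧ kb ≤ P 2 ∧
      ((Bt (P 2) (P 3) ((1 + 1) * (i * P 15 + j)) ka ∧
        Bt (P 2) (P 3) ((1 + 1) * (i * P 15 + j) + 1) kb) ∧ PosF P ka kb)))

end sem

section syn

/-- shift all terms of a family -/
def sh (p : ℕ → Tm) : ℕ → Tm := fun i => (p i).shift


def fBt (c d i a : Tm) : D0 :=
  .and (.le a (Tm.mul (Tm.add i .one) d))
    (.bex c (.eq c.shift (Tm.add (Tm.mul (.var 0) (Tm.add .one (Tm.mul (Tm.add i.shift .one) d.shift))) a.shift)))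

def fCong (q a b : Tm) : D0 :=
  .bex (Tm.add a b) (.or (.eq a.shift (Tm.add (Tm.mul (.var 0) q.shift) b.shift))
    (.eq b.shift (Tm.add (Tm.mul (.var 0) q.shift) a.shift)))

def fNode (q c' d' k x : Tm) : D0 :=
  .bex q (.and (.lt (.var 0) q.shift)
    (.and (fBt c'.shift d'.shift k.shift (.var 0)) (fCong q.shift (.var 0) x.shift)))

def fTree (p : ℕ → Tm) (q c' d' : Tm) : D0 :=
  .and (.and (fNode q c' d' .zero .zero) (.and (fNode q c' d' .one .one)
    (.and (fNode q c' d' (Tm.add .one .one) (p 16)) (.and (fNode q c' d' (Tm.add (Tm.add .one .one) .one) (p 17))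
    (.and (fNode q c' d' (Tm.add (Tm.add (Tm.add .one .one) .one) .one) (p 18))
      (fNode q c' d' (Tm.add (Tm.add (Tm.add (Tm.add .one .one) .one) .one) .one) (p 19)))))))
  (.and
    (.ball (p 10) (.imp (.lt (.var 0) (sh p 10))
      (.bex (sh p 20) (.and (fBt (sh (sh p) 20) (sh (sh p) 21) (.var 1) (.var 0))
        (fNode q.shift.shift c'.shift.shift d'.shift.shift
          (Tm.add (Tm.add (Tm.add (Tm.add (Tm.add (Tm.add .one .one) .one) .one) .one) .one) (.var 1)) (.var 0))))))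
    (.ball (p 11) (.imp (.lt (.var 0) (sh p 11))
      (.bex (sh p 0) (.bex (sh (sh p) 0) (.bex (sh (sh (sh p)) 0)
        (.and (.and (fBt (sh (sh (sh (sh p))) 0) (sh (sh (sh (sh p))) 1)
              (Tm.add (Tm.add (.var 3) (.var 3)) (.var 3)) (.var 2))
            (.and (fBt (sh (sh (sh (sh p))) 0) (sh (sh (sh (sh p))) 1)
              (Tm.add (Tm.add (Tm.add (.var 3) (.var 3)) (.var 3)) .one) (.var 1))
            (fBt (sh (sh (sh (sh p))) 0) (sh (sh (sh (sh p))) 1)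
              (Tm.add (Tm.add (Tm.add (Tm.add (.var 3) (.var 3)) (.var 3)) .one) .one) (.var 0))))
          (.bex c'.shift.shift.shift.shift (.bex c'.shift.shift.shift.shift.shift
            (.bex c'.shift.shift.shift.shift.shift.shift
              (.and (.and (fBt c'.shift.shift.shift.shift.shift.shift.shift
                    d'.shift.shift.shift.shift.shift.shift.shift (.var 5) (.var 2))
                  (.and (fBt c'.shift.shift.shift.shift.shift.shift.shift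
                    d'.shift.shift.shift.shift.shift.shift.shift (.var 4) (.var 1))
                  (fBt c'.shift.shift.shift.shift.shift.shift.shift
                    d'.shift.shift.shift.shift.shift.shift.shift (.var 3) (.var 0))))
                (fNode q.shift.shift.shift.shift.shift.shift.shift
                  c'.shift.shift.shift.shift.shift.shift.shift
                  d'.shift.shift.shift.shift.shift.shift.shift
                  (Tm.add (Tm.add (Tm.add (Tm.add (Tm.add (Tm.add (Tm.add .one .one) .one) .one) .one) .one) (sh (sh (sh (sh (sh (sh (sh p)))))) 10)) (.var 6))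
                  (Tm.add (Tm.mul (.var 2) (.var 1)) (.var 0))))))))))))))

def fFl (W q c' d' k A : Tm) : D0 :=
  .bex q (.and (fBt c'.shift d'.shift k.shift (.var 0))
    (.and (.le (Tm.mul A.shift q.shift) (Tm.mul W.shift (.var 0)))
      (.lt (Tm.mul W.shift (.var 0)) (Tm.mul (Tm.add A.shift .one) q.shift))))

def fSg (p : ℕ → Tm) (E F H ka kb q : Tm) : D0 :=
  .bex H (.and (.lt (.var 0) H.shift) (.ball (sh p 12)
    (.bex (sh (sh p) 22) (.bex (sh (sh (sh p)) 22)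
      (.and (fTree (sh (sh (sh (sh p)))) (Tm.add q.shift.shift.shift.shift (.var 2)) (.var 1) (.var 0))
        (.bex E.shift.shift.shift.shift (.bex E.shift.shift.shift.shift.shift
          (.and (.and
            (fBt E.shift.shift.shift.shift.shift.shift F.shift.shift.shift.shift.shift.shift
              (Tm.mul (Tm.add .one .one) (Tm.add (Tm.mul (.var 5) (Tm.add (sh (sh (sh (sh (sh (sh p))))) 12) .one)) (.var 4)))
              (.var 1))
            (fBt E.shift.shift.shift.shift.shift.shift F.shift.shift.shift.shift.shift.shift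
              (Tm.add (Tm.mul (Tm.add .one .one) (Tm.add (Tm.mul (.var 5) (Tm.add (sh (sh (sh (sh (sh (sh p))))) 12) .one)) (.var 4))) .one)
              (.var 0)))
            (.and
              (fFl (sh (sh (sh (sh (sh (sh p))))) 13)
                (Tm.add q.shift.shift.shift.shift.shift.shift (.var 4)) (.var 3) (.var 2)
                ka.shift.shift.shift.shift.shift.shift (.var 1))
              (fFl (sh (sh (sh (sh (sh (sh p))))) 13)
                (Tm.add q.shift.shift.shift.shift.shift.shift (.var 4)) (.var 3) (.var 2)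
                kb.shift.shift.shift.shift.shift.shift (.var 0)))))))))))

def fPos (p : ℕ → Tm) (ka kb : Tm) : D0 :=
  .bex (p 22) (.and (.le .one (.var 0))
    (.and (fSg (sh p) (sh p 4) (sh p 5) (sh p 6) ka.shift kb.shift (.var 0))
      (.ball (sh p 22) (.imp (.lt (.var 1) (.var 0))
        (.and
          (.neg (fSg (sh (sh p)) (sh (sh p) 4) (sh (sh p) 5) (sh (sh p) 6)
            ka.shift.shift kb.shift.shift (.var 0)))
          (.neg (fSg (sh (sh p)) (sh (sh p) 7) (sh (sh p) 8) (sh (sh p) 9)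
            ka.shift.shift kb.shift.shift (.var 0))))))))

def fUniv (p : ℕ → Tm) : D0 :=
  .bex (p 14) (.and (.lt (.var 0) (sh p 14)) (.ball (sh p 15) (.imp (.lt (.var 0) (sh (sh p) 15))
    (.bex (sh (sh p) 2) (.bex (sh (sh (sh p)) 2)
      (.and (.and
        (fBt (sh (sh (sh (sh p))) 2) (sh (sh (sh (sh p))) 3)
          (Tm.mul (Tm.add .one .one) (Tm.add (Tm.mul (.var 3) (sh (sh (sh (sh p))) 15)) (.var 2))) (.var 1))
        (fBt (sh (sh (sh (sh p))) 2) (sh (sh (sh (sh p))) 3)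
          (Tm.add (Tm.mul (Tm.add .one .one) (Tm.add (Tm.mul (.var 3) (sh (sh (sh (sh p))) 15)) (.var 2))) .one) (.var 0)))
        (fPos (sh (sh (sh (sh p)))) (.var 1) (.var 0))))))))

/-- the universal formula -/
def U : D0 := fUniv Tm.var

end syn

section evals

variable {R : Type} [CommRing R] [LinearOrder R]

@[simp] lemma sh_eval (a : R) (v : ℕ → R) (p : ℕ → Tm) (i : ℕ) :
    (sh p i).eval (push a v) = (p i).eval v := by simp [sh]

@[simp] lemma sh_eval_fun (a : R) (v : ℕ → R) (p : ℕ → Tm) :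
    (fun i => (sh p i).eval (push a v)) = fun i => (p i).eval v := by funext i; simp

@[simp] lemma fBt_eval (v : ℕ → R) (c d i a : Tm) :
    (fBt c d i a).eval v ↔ Bt (c.eval v) (d.eval v) (i.eval v) (a.eval v) := by
  simp [fBt, Bt]

@[simp] lemma fCong_eval (v : ℕ → R) (q a b : Tm) :
    (fCong q a b).eval v ↔ Cong (q.eval v) (a.eval v) (b.eval v) := by
  simp [fCong, Cong]

@[simp] lemma fNode_eval (v : ℕ → R) (q c' d' k x : Tm) :
    (fNode q c' d' k x).eval v
      ↔ NodeIs (q.eval v) (c'.eval v) (d'.eval v) (k.eval v) (x.eval v) := by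
  simp [fNode, NodeIs]

end evals

end Pool.SBM
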