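import Pool.Agent.Work.MP_c9932b_sb.Univ

set_option autoImplicit false

namespace Pool.SBM

variable {R : Type} [CommRing R] [LinearOrder R]

@[simp] lemma fTree_eval (v : ℕ → R) (p : ℕ → Tm) (q c' d' : Tm) :
    (fTree p q c' d').eval v
      ↔ Tree (fun i => (p i).eval v) (q.eval v) (c'.eval v) (d'.eval v) := by
  simp only [fTree, Tree, D0.eval_and, fNode_eval, Tm.eval_zero, Tm.eval_one, Tm.eval_add,
    D0.eval_ball, D0.eval_imp, D0.eval_lt, D0.eval_bex, sh_eval, Tm.eval_shift, Tm.eval_var,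
    fBt_eval, push_zero', push_one', push_ofNat, Tm.eval_mul]
  simp [push]

@[simp] lemma fFl_eval (v : ℕ → R) (W q c' d' k A : Tm) :
    (fFl W q c' d' k A).eval v
      ↔ Fl (W.eval v) (q.eval v) (c'.eval v) (d'.eval v) (k.eval v) (A.eval v) := by
  simp [fFl, Fl]

@[simp] lemma fSg_eval (v : ℕ → R) (p : ℕ → Tm) (E F H ka kb q : Tm) :
    (fSg p E F H ka kb q).eval v
      ↔ SgF (fun i => (p i).eval v) (E.eval v) (F.eval v) (H.eval v) (ka.eval v) (kb.eval v)
        (q.eval v) := by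
  simp only [fSg, SgF, D0.eval_and, Tm.eval_one, Tm.eval_add, D0.eval_ball, D0.eval_lt,
    D0.eval_bex, sh_eval, Tm.eval_shift, Tm.eval_var, fBt_eval, push_zero', push_one',
    push_ofNat, Tm.eval_mul, fTree_eval, fFl_eval, sh_eval_fun]
  simp [push]

@[simp] lemma fPos_eval (v : ℕ → R) (p : ℕ → Tm) (ka kb : Tm) :
    (fPos p ka kb).eval v
      ↔ PosF (fun i => (p i).eval v) (ka.eval v) (kb.eval v) := by
  simp only [fPos, PosF, D0.eval_and, Tm.eval_one, D0.eval_ball, D0.eval_lt, D0.eval_le,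
    D0.eval_imp, D0.eval_neg, D0.eval_bex, sh_eval, Tm.eval_shift, Tm.eval_var, push_zero',
    push_one', fSg_eval, sh_eval_fun]

@[simp] lemma fUniv_eval (v : ℕ → R) (p : ℕ → Tm) :
    (fUniv p).eval v ↔ UnivF (fun i => (p i).eval v) := by
  simp only [fUniv, UnivF, D0.eval_and, Tm.eval_one, Tm.eval_add, D0.eval_ball, D0.eval_lt,
    D0.eval_imp, D0.eval_bex, sh_eval, Tm.eval_shift, Tm.eval_var, fBt_eval, push_zero',
    push_one', push_ofNat, Tm.eval_mul, fPos_eval, sh_eval_fun]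
  simp [push]

lemma U_eval (v : ℕ → R) : U.eval v ↔ UnivF v := by
  simp [U]

end Pool.SBM
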